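import Pool.Agent.TVR.Asm

set_option autoImplicit false

namespace Pool.Agent.Results.MP_6dc258_pr.WindingVariance

open MeasureTheory ProbabilityTheory Filter Topology
open scoped NNReal ENNReal
open Pool.Agent.Helper46.Tor

/-- `F` is the law of the edge weights: not a point mass and `F {0} < 1/2`; `T n` is the winding
passage time on the `n × n` torus. The variance of `T n` (in `[0, ∞]`) tends to infinity. -/
theorem result (F : Measure ℝ≥0) [IsProbabilityMeasure F] (hnd : ∀ x, F {x} ≠ 1)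
    (h0 : F {0} < 1 / 2) :
    Tendsto (fun n : ℕ => evariance (T (n + 1))
      (Measure.pi fun _ : Sym2 (ZMod (n + 1) × ZMod (n + 1)) => F)) atTop (𝓝 ∞) ∧
    ((∀ n : ℕ, MemLp (T (n + 1)) 2
        (Measure.pi fun _ : Sym2 (ZMod (n + 1) × ZMod (n + 1)) => F)) →
      Tendsto (fun n : ℕ => variance (T (n + 1))
        (Measure.pi fun _ : Sym2 (ZMod (n + 1) × ZMod (n + 1)) => F)) atTop atTop) := by
  have h1 : Tendsto (fun n : ℕ => evariance (T (n + 1))
      (Measure.pi fun _ : Sym2 (ZMod (n + 1) × ZMod (n + 1)) => F)) atTop (𝓝 ∞) := by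
    rw [ENNReal.tendsto_nhds_top_iff_nat]
    intro Q
    obtain ⟨N, hN⟩ := Pool.Agent.TVR.main F hnd h0 ((Q : ℝ) + 1)
    filter_upwards [eventually_ge_atTop N] with n hn
    refine lt_of_lt_of_le ?_ (hN (n + 1) (by omega))
    rw [← ENNReal.ofReal_natCast]
    exact (ENNReal.ofReal_lt_ofReal_iff (by positivity)).2 (by linarith)
  refine ⟨h1, fun h2 => ?_⟩
  rw [tendsto_atTop]
  intro b
  have h3 := (ENNReal.tendsto_nhds_top_iff_nat.1 h1) ⌈b⌉₊
  filter_upwards [h3] with n hn
  have h4 : evariance (T (n + 1))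
      (Measure.pi fun _ : Sym2 (ZMod (n + 1) × ZMod (n + 1)) => F) ≠ ∞ :=
    (h2 n).evariance_lt_top.ne
  have h5 : ENNReal.ofReal (⌈b⌉₊ : ℝ) ≤ evariance (T (n + 1))
      (Measure.pi fun _ : Sym2 (ZMod (n + 1) × ZMod (n + 1)) => F) := by
    rw [ENNReal.ofReal_natCast]
    exact hn.le
  exact (Nat.le_ceil b).trans ((ENNReal.ofReal_le_iff_le_toReal h4).mp h5)

end Pool.Agent.Results.MP_6dc258_pr.WindingVariance
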